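import Pool.Agent.W841.PK.Final

/-! For `k = ⌊√n⌋` minimum-degree peeling finds the planted clique with probability at least `1/2`
(for all large `n`), for every tie-breaking rule which is a function of the current vertex set and
the current degrees, and for uniformly random tie-breaking. -/

set_option autoImplicit false

namespace Pool.Agent.Results.MP_350a25_pr.PeelingFindsClique

open Finset W841.PK

/-- average of `f G S` over a uniform simple graph `G` on `Fin n` and an independent uniform
`k`-subset `S` -/
noncomputable def avgGS (n k : ℕ) (f : SimpleGraph (Fin n) → Finset (Fin n) → ℝ) : ℝ :=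
  (∑ S ∈ (univ : Finset (Fin n)).powersetCard k, ∑ G : SimpleGraph (Fin n), f G S) /
    ((((univ : Finset (Fin n)).powersetCard k).card : ℝ) *
      (Fintype.card (SimpleGraph (Fin n)) : ℝ))

theorem avg_ge (n k : ℕ) (hk : k ≤ n) (c : ℝ) (f : SimpleGraph (Fin n) → Finset (Fin n) → ℝ)
    (h : ∀ S : Finset (Fin n), S.card = k → c ≤ Ex (fun G => f G S)) : c ≤ avgGS n k f := by
  have h1 : (0 : ℝ) < (((univ : Finset (Fin n)).powersetCard k).card : ℝ) := by
    rw [card_powersetCard, card_univ, Fintype.card_fin]
    exact_mod_cast Nat.choose_pos hk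
  have h2 : (0 : ℝ) < (Fintype.card (SimpleGraph (Fin n)) : ℝ) := card_pos'
  unfold avgGS
  rw [le_div_iff₀ (by positivity)]
  calc c * ((((univ : Finset (Fin n)).powersetCard k).card : ℝ) *
        (Fintype.card (SimpleGraph (Fin n)) : ℝ))
      = ∑ S ∈ (univ : Finset (Fin n)).powersetCard k,
          c * (Fintype.card (SimpleGraph (Fin n)) : ℝ) := by
        rw [sum_const, nsmul_eq_mul]; ring
    _ ≤ _ := sum_le_sum fun S hS => by
        have := h S (mem_powersetCard.1 hS).2
        unfold Ex at this
        rwa [le_div_iff₀ h2] at this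

open Classical in
/-- **Result.** There is `n0` such that for all `n ≥ n0` and `k = ⌊√n⌋` (which is `≤ √n`):
for every tie-breaking rule `ρ` the probability that peeling stops at a clique containing a planted
vertex is at least `1/2`; the same for uniformly random tie-breaking. -/
theorem result : (∀ n : ℕ, (Nat.sqrt n : ℝ) ≤ √(n : ℝ)) ∧ ∃ n0 : ℕ, ∀ n ≥ n0,
    (∀ ρ : Rule n, IsRule ρ →
      1 / 2 ≤ avgGS n (Nat.sqrt n) (fun G S => if Succ ρ (plant G S) S then 1 else 0)) ∧
    1 / 2 ≤ avgGS n (Nat.sqrt n) (fun G S => rsp (plant G S) S n univ) := by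
  refine ⟨fun n => Real.nat_sqrt_le_real_sqrt, ?_⟩
  obtain ⟨n0, h⟩ := main
  refine ⟨max n0 1, fun n hn => ⟨fun ρ hρ => ?_, ?_⟩⟩
  · refine avg_ge n _ (Nat.sqrt_le_self n) _ _ fun S hS => ?_
    have := h n (le_trans (le_max_left _ _) hn) S ρ hS hρ
    exact this
  · refine avg_ge n _ (Nat.sqrt_le_self n) _ _ fun S hS => ?_
    exact rand n S _ (le_trans (le_max_right _ _) hn) fun ρ hρ =>
      h n (le_trans (le_max_left _ _) hn) S ρ hS hρ

end Pool.Agent.Results.MP_350a25_pr.PeelingFindsClique
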